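import Pool.Graph.R_pool_sql_team_seeded_47a924f7.T6.H57.MG.Main

/-!
# Lower growth of minimal graphs and the angular measure of the domain

Let `u` be a positive solution of the minimal surface equation in an open set `D`, with zero
boundary values, and let `Θ(r)` be the angular measure of `D ∩ {|z| = r}`.  If no large circle is
contained in `D`, then `M(r)` grows at least like `exp (π ∫ dt / (t φ(t)))` for every continuous
upper bound `φ` of `Θ` with values in `[π + κ, 2π]`, `κ > 0`; in particular `M(r) ≥ C r^(π/α)` if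
`Θ ≤ α` with `π < α ≤ 2π` (the case `α = 2π`, where nothing is assumed on `Θ`, gives `C √r`, in
particular for all domains bounded by a Jordan arc), and `M(r) ≥ C r` if `Θ ≤ α < π`.
-/

set_option autoImplicit false

open MeasureTheory Set Filter Topology Real

namespace Pool.Agent.Results.MP_41eeae_an.AngularGrowth

/-- `∂u/∂x` -/
noncomputable def ux (u : ℂ → ℝ) (z : ℂ) : ℝ := fderiv ℝ u z 1

/-- `∂u/∂y` -/
noncomputable def uy (u : ℂ → ℝ) (z : ℂ) : ℝ := fderiv ℝ u z Complex.I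

/-- `√(1 + |∇u|²)` -/
noncomputable def W (u : ℂ → ℝ) (z : ℂ) : ℝ := √(1 + (ux u z ^ 2 + uy u z ^ 2))

/-- `u` is a solution of the problem `(∗)` in `D`: `u ∈ C²(D) ∩ C(closure D)` satisfies the
minimal surface equation `div (∇u / √(1 + |∇u|²)) = 0` in `D`, `u > 0` in `D` and `u = 0` on the
boundary of `D`. -/
structure IsSolution (D : Set ℂ) (u : ℂ → ℝ) : Prop where
  smooth : ContDiffOn ℝ 2 u D
  cont : ContinuousOn u (closure D)
  mse : ∀ z ∈ D, fderiv ℝ (fun w => ux u w / W u w) z 1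
    + fderiv ℝ (fun w => uy u w / W u w) z Complex.I = 0
  pos : ∀ z ∈ D, 0 < u z
  bdry : ∀ z ∈ frontier D, u z = 0

/-- `γ` parametrises a Jordan arc: it is continuous and injective on the line and `|γ(t)| → ∞`
as `t → ±∞`. -/
structure IsJordanArc (γ : ℝ → ℂ) : Prop where
  cont : Continuous γ
  inj : Function.Injective γ
  top : Tendsto (fun t => ‖γ t‖) atTop atTop
  bot : Tendsto (fun t => ‖γ t‖) atBot atTop

/-- `Θ(r)`: the angular measure of `D ∩ {|z| = r}`, i.e. the Lebesgue measure of the set of all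
`θ ∈ [0, 2π)` with `r e^{iθ} ∈ D`. -/
noncomputable def angle (D : Set ℂ) (r : ℝ) : ℝ :=
  volume.real {θ : ℝ | θ ∈ Ico 0 (2 * π) ∧ (r : ℂ) * Complex.exp (θ * Complex.I) ∈ D}

/-- There are constants `C > 0`, `r₀ > 0` such that for every `r > r₀` the maximum
`M(r) = max {u(z) : z ∈ D, |z| = r}` exists and is at least `C g(r)`. -/
def GrowsLike (D : Set ℂ) (u : ℂ → ℝ) (g : ℝ → ℝ) : Prop :=
  ∃ C > 0, ∃ r₀ > 0, ∀ r, r₀ < r → ∃ M, IsGreatest (u '' (D ∩ {z | ‖z‖ = r})) M ∧ C * g r ≤ M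

section proof

open Pool.Agent.T6.H57.MG (pt FF aa GG XX YY ww ee ft yt pf ut)

variable {D : Set ℂ} {u : ℂ → ℝ}

theorem pt_eq (r θ : ℝ) : pt r θ = (r : ℂ) * Complex.exp (θ * Complex.I) := by
  rw [Complex.exp_mul_I]
  apply Complex.ext
  · simp [pt, Complex.cos_ofReal_re, Complex.sin_ofReal_re]
  · simp [pt, Complex.cos_ofReal_re, Complex.sin_ofReal_re]

/-- the indicator of `D` along a circle -/
noncomputable def ind (D : Set ℂ) (r θ : ℝ) : ℝ := D.indicator (fun _ => (1 : ℝ)) (pt r θ)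

theorem ind_meas (hD : IsOpen D) (r : ℝ) : Measurable (ind D r) :=
  (measurable_const.indicator hD.measurableSet).comp
    (Pool.Agent.T6.H57.MG.pt_θ_cont r).measurable

theorem ind_nonneg (r θ : ℝ) : 0 ≤ ind D r θ := indicator_nonneg (fun _ _ => zero_le_one) _

theorem ind_le_one (r θ : ℝ) : ind D r θ ≤ 1 := by
  unfold ind
  by_cases h : pt r θ ∈ D
  · rw [indicator_of_mem h]
  · rw [indicator_of_notMem h]; exact zero_le_one

theorem ind_int (hD : IsOpen D) (r a b : ℝ) : IntervalIntegrable (ind D r) volume a b := by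
  rw [intervalIntegrable_iff]
  refine Measure.integrableOn_of_bounded (M := 1) ?_ (ind_meas hD r).aestronglyMeasurable ?_
  · rw [uIoc]
    exact measure_Ioc_lt_top.ne
  · refine Eventually.of_forall fun x => ?_
    rw [Real.norm_eq_abs, abs_of_nonneg (ind_nonneg _ _)]
    exact ind_le_one _ _

theorem ind_shift (r t : ℝ) : ∫ θ in t..(t + 2 * π), ind D r θ = ∫ θ in (0 : ℝ)..(2 * π), ind D r θ := by
  have hp : Function.Periodic (fun θ => ind D r θ) (2 * π) := by
    intro θ
    simp only [ind, Pool.Agent.T6.H57.MG.pt_per]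
  have := hp.intervalIntegral_add_eq t 0
  rwa [zero_add] at this

theorem ind_integral (hD : IsOpen D) (r : ℝ) : ∫ θ in (0 : ℝ)..(2 * π), ind D r θ = angle D r := by
  have hpi := Real.pi_pos
  rw [intervalIntegral.integral_of_le (by positivity), ← integral_Ico_eq_integral_Ioc]
  have h1 : MeasurableSet {θ : ℝ | pt r θ ∈ D} :=
    (Pool.Agent.T6.H57.MG.pt_θ_cont r).measurable hD.measurableSet
  have h2 : ∀ θ, ind D r θ = ({θ : ℝ | pt r θ ∈ D}).indicator (fun _ => (1 : ℝ)) θ := by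
    intro θ
    rfl
  simp_rw [h2]
  rw [setIntegral_indicator h1, setIntegral_const, smul_eq_mul, mul_one]
  unfold angle
  congr 1
  ext θ
  simp only [mem_inter_iff, mem_ofPred_eq, pt_eq]

/-- the weight used on circles that are not contained in `D` -/
noncomputable def vv (D : Set ℂ) (u : ℂ → ℝ) (ε δ : ℝ) (z : ℂ) : ℝ :=
  δ + D.indicator (fun z => pf ε (u z) ^ 2 * Pool.Agent.T6.H57.MG.W u z) z

theorem vv_cont (hD : IsOpen D) (h : Pool.Agent.T6.H57.MG.IsSolution D u) {ε : ℝ} (hε : 0 < ε)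
    (δ : ℝ) : Continuous (vv D u ε δ) := by
  apply continuous_const.add
  apply Pool.Agent.T6.H57.MG.cut_cont hD h hε (fun t => pf ε t ^ 2)
    (fun t ht => by simp [Pool.Agent.T6.H57.MG.pf_zero hε ht])
    ((Pool.Agent.T6.H57.MG.pf_cont ε).pow 2)
  exact (Pool.Agent.T6.H57.MG.W_contDiffOn hD h).continuousOn

theorem vv_pos {ε δ : ℝ} (hδ : 0 < δ) (z : ℂ) : 0 < vv D u ε δ z := by
  unfold vv
  have : 0 ≤ D.indicator (fun z => pf ε (u z) ^ 2 * Pool.Agent.T6.H57.MG.W u z) z := by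
    apply indicator_nonneg
    intro z _
    have := Pool.Agent.T6.H57.MG.one_le_W (u := u) z
    exact mul_nonneg (sq_nonneg _) (by linarith)
  linarith

theorem vv_le (ε δ r θ : ℝ) : vv D u ε δ (pt r θ) ≤ δ + (ind D r θ + ee D u ε (pt r θ)) := by
  unfold vv ee ind
  by_cases hz : pt r θ ∈ D
  · rw [indicator_of_mem hz, indicator_of_mem hz, indicator_of_mem hz]
    have h1 := Pool.Agent.T6.H57.MG.one_le_W (u := u) (pt r θ)
    have h2 := Pool.Agent.T6.H57.MG.W_sq (u := u) (pt r θ)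
    have h3 : Pool.Agent.T6.H57.MG.W u (pt r θ) ≤ 1 +
        (Pool.Agent.T6.H57.MG.ux u (pt r θ) ^ 2 + Pool.Agent.T6.H57.MG.uy u (pt r θ) ^ 2) /
          Pool.Agent.T6.H57.MG.W u (pt r θ) := by
      rw [← sub_le_iff_le_add', le_div_iff₀ (by linarith)]
      nlinarith
    have h4 := mul_le_mul_of_nonneg_left h3 (sq_nonneg (pf ε (u (pt r θ))))
    have h5 : pf ε (u (pt r θ)) ^ 2 ≤ 1 :=
      pow_le_one₀ (Pool.Agent.T6.H57.MG.pf_nonneg _ _) (Pool.Agent.T6.H57.MG.pf_le_one _ _)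
    linarith
  · rw [indicator_of_notMem hz, indicator_of_notMem hz, indicator_of_notMem hz]
    simp

theorem pw3 (hD : IsOpen D) (h : Pool.Agent.T6.H57.MG.IsSolution D u) {ε : ℝ} (hε : 0 < ε)
    {r : ℝ} (hr : 0 < r) {δ : ℝ} (hδ : 0 < δ) (θ : ℝ) :
    (ft D u ε r θ ^ 2 + yt D u ε r θ ^ 2) / (r * vv D u (ε / 2) δ (pt r θ)) ≤
      r * ee D u ε (pt r θ) := by
  by_cases hz : pt r θ ∈ D ∧ pf ε (u (pt r θ)) ≠ 0
  · refine le_trans ?_ (Pool.Agent.T6.H57.MG.pw2 hD h hε hr θ)
    rw [Pool.Agent.T6.H57.MG.ww_eq hε hz.1 hz.2]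
    have h1 : ε < u (pt r θ) := by
      by_contra hc
      exact hz.2 (Pool.Agent.T6.H57.MG.pf_zero hε (not_lt.1 hc))
    have h2 := Pool.Agent.T6.H57.MG.one_le_W (u := u) (pt r θ)
    apply div_le_div_of_nonneg_left (by positivity) (by positivity)
    apply mul_le_mul_of_nonneg_left _ hr.le
    unfold vv
    rw [indicator_of_mem hz.1, Pool.Agent.T6.H57.MG.pf_one hε h1.le]
    linarith
  · have h0 : ∀ v, fderiv ℝ (GG D u ε) (pt r θ) v = 0 := by
      intro v
      rw [Pool.Agent.T6.H57.MG.GG_fderiv hD h hε]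
      by_cases hz1 : pt r θ ∈ D
      · rw [indicator_of_mem hz1]
        have : pf ε (u (pt r θ)) = 0 := by
          by_contra hc
          exact hz ⟨hz1, hc⟩
        rw [this, zero_mul]
      · rw [indicator_of_notMem hz1]
    unfold ft yt
    rw [h0, h0]
    have : 0 ≤ r * ee D u ε (pt r θ) := mul_nonneg hr.le (Pool.Agent.T6.H57.MG.ee_nonneg ε _)
    simpa using this

theorem key1 (hD : IsOpen D) (h : Pool.Agent.T6.H57.MG.IsSolution D u) {ε : ℝ} (hε : 0 < ε)
    {r : ℝ} (hr : 0 < r) {t : ℝ} (ht : pt r t ∉ D) {δ : ℝ} (hδ : 0 < δ) :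
    FF D u ε r ≤ (r * angle D r + aa D u (ε / 2) r + 2 * π * (r * δ)) / (2 * π) * aa D u ε r := by
  have hpi := Real.pi_pos
  have hε2 : 0 < ε / 2 := by positivity
  have hG := Pool.Agent.T6.H57.MG.GG_contDiff hD h hε
  have hwc : Continuous (fun θ => r * vv D u (ε / 2) δ (pt r θ)) :=
    continuous_const.mul ((vv_cont hD h hε2 δ).comp (Pool.Agent.T6.H57.MG.pt_θ_cont r))
  have hwp : ∀ θ, 0 < r * vv D u (ε / 2) δ (pt r θ) := fun θ =>
    mul_pos hr (vv_pos hδ _)
  have g1 := (Pool.Agent.T6.H57.MG.fderiv_cont _ hG 1).comp (Pool.Agent.T6.H57.MG.pt_θ_cont r)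
  have gI := (Pool.Agent.T6.H57.MG.fderiv_cont _ hG Complex.I).comp
    (Pool.Agent.T6.H57.MG.pt_θ_cont r)
  have hfc : Continuous (ft D u ε r) :=
    continuous_const.mul ((Real.continuous_cos.mul gI).sub (Real.continuous_sin.mul g1))
  have hyc : Continuous (yt D u ε r) :=
    (continuous_const.mul ((g1.mul Real.continuous_cos).add (gI.mul Real.continuous_sin)).abs).div
      ((Pool.Agent.T6.H57.MG.ww_cont hD h hε2).comp (Pool.Agent.T6.H57.MG.pt_θ_cont r))
      (fun θ => (zero_lt_one.trans_le (Pool.Agent.T6.H57.MG.one_le_ww _ _)).ne')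
  have hG0 : GG D u ε (pt r t) = 0 := indicator_of_notMem ht _
  have hGc : Continuous (fun θ => GG D u ε (pt r θ)) :=
    hG.continuous.comp (Pool.Agent.T6.H57.MG.pt_θ_cont r)
  have hlt : t < t + 2 * π := by linarith
  have h1 := Pool.Agent.T6.H57.MG.wirt_mul (fun θ => GG D u ε (pt r θ)) (ft D u ε r)
    (fun θ => r * vv D u (ε / 2) δ (pt r θ)) (yt D u ε r)
    (fun θ => Pool.Agent.T6.H57.MG.hasDerivAt_comp_pt_θ _ hG r θ) hfc hwc hwp hyc t (t + 2 * π) hlt
    hG0 (by show GG D u ε (pt r (t + 2 * π)) = 0; rw [Pool.Agent.T6.H57.MG.pt_per]; exact hG0)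
  have hXc : Continuous (fun θ =>
      r * (XX D u ε (pt r θ) * Real.cos θ + YY D u ε (pt r θ) * Real.sin θ)) :=
    continuous_const.mul ((((Pool.Agent.T6.H57.MG.XX_contDiff hD h hε).continuous.comp
      (Pool.Agent.T6.H57.MG.pt_θ_cont r)).mul
      Real.continuous_cos).add (((Pool.Agent.T6.H57.MG.YY_contDiff hD h hε).continuous.comp
        (Pool.Agent.T6.H57.MG.pt_θ_cont r)).mul
      Real.continuous_sin))
  have h2 : FF D u ε r ≤ ∫ θ in t..(t + 2 * π), GG D u ε (pt r θ) * yt D u ε r θ := by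
    rw [Pool.Agent.T6.H57.MG.FF_shift ε r t]
    exact intervalIntegral.integral_mono hlt.le (hXc.intervalIntegrable _ _)
      ((hGc.mul hyc).intervalIntegrable _ _) (fun θ => Pool.Agent.T6.H57.MG.pw1 hD h hε hr θ)
  have hec : ∀ δ, 0 < δ → Continuous (fun θ => r * ee D u δ (pt r θ)) := fun δ hδ =>
    continuous_const.mul ((Pool.Agent.T6.H57.MG.ee_cont hD h hδ).comp
      (Pool.Agent.T6.H57.MG.pt_θ_cont r))
  have h3 : ∫ θ in t..(t + 2 * π), (ft D u ε r θ ^ 2 + yt D u ε r θ ^ 2) /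
      (r * vv D u (ε / 2) δ (pt r θ)) ≤ aa D u ε r := by
    rw [Pool.Agent.T6.H57.MG.aa_shift ε r t]
    apply intervalIntegral.integral_mono hlt.le _ ((hec ε hε).intervalIntegrable _ _)
      (fun θ => pw3 hD h hε hr hδ θ)
    exact (((hfc.pow 2).add (hyc.pow 2)).div hwc (fun θ => (hwp θ).ne')).intervalIntegrable _ _
  have h4 : ∫ θ in t..(t + 2 * π), r * vv D u (ε / 2) δ (pt r θ) ≤
      r * angle D r + aa D u (ε / 2) r + 2 * π * (r * δ) := by
    have hi := (ind_int hD r t (t + 2 * π)).const_mul r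
    have e1 : ∫ θ in t..(t + 2 * π), r * ind D r θ = r * angle D r := by
      rw [intervalIntegral.integral_const_mul, ind_shift, ind_integral hD]
    have h5 : ∫ θ in t..(t + 2 * π), r * vv D u (ε / 2) δ (pt r θ) ≤
        ∫ θ in t..(t + 2 * π), (r * δ + (r * ind D r θ + r * ee D u (ε / 2) (pt r θ))) := by
      apply intervalIntegral.integral_mono hlt.le (hwc.intervalIntegrable _ _)
        (intervalIntegrable_const.add (hi.add ((hec _ hε2).intervalIntegrable _ _)))
      intro θ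
      have := mul_le_mul_of_nonneg_left (vv_le (D := D) (u := u) (ε / 2) δ r θ) hr.le
      show r * vv D u (ε / 2) δ (pt r θ) ≤ r * δ + (r * ind D r θ + r * ee D u (ε / 2) (pt r θ))
      linarith
    rw [intervalIntegral.integral_add intervalIntegrable_const
      (hi.add ((hec _ hε2).intervalIntegrable _ _)),
      intervalIntegral.integral_add hi ((hec _ hε2).intervalIntegrable _ _),
      intervalIntegral.integral_const, e1, ← Pool.Agent.T6.H57.MG.aa_shift, smul_eq_mul] at h5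
    linarith
  have ha := Pool.Agent.T6.H57.MG.aa_nonneg (D := D) (u := u) ε hr.le
  have h6 : 0 ≤ (∫ θ in t..(t + 2 * π), r * vv D u (ε / 2) δ (pt r θ)) / (2 * π) := by
    apply div_nonneg _ (by positivity)
    exact intervalIntegral.integral_nonneg hlt.le (fun θ _ => (hwp θ).le)
  calc FF D u ε r ≤ _ := h2
    _ ≤ _ := h1
    _ ≤ (∫ θ in t..(t + 2 * π), r * vv D u (ε / 2) δ (pt r θ)) / (2 * π) * aa D u ε r :=
        mul_le_mul_of_nonneg_left h3 h6
    _ ≤ _ := by
        apply mul_le_mul_of_nonneg_right _ ha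
        exact div_le_div_of_nonneg_right h4 (by positivity)

/-- the key inequality -/
theorem key (hD : IsOpen D) (h : Pool.Agent.T6.H57.MG.IsSolution D u) {ε : ℝ} (hε : 0 < ε)
    {r : ℝ} (hr : 0 < r) {t : ℝ} (ht : pt r t ∉ D) :
    2 * π * FF D u ε r ≤ (r * angle D r + aa D u (ε / 2) r) * aa D u ε r := by
  have hpi := Real.pi_pos
  have ha := Pool.Agent.T6.H57.MG.aa_nonneg (D := D) (u := u) ε hr.le
  by_contra hc
  push Not at hc
  set gap := 2 * π * FF D u ε r - (r * angle D r + aa D u (ε / 2) r) * aa D u ε r with hgap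
  have hg : 0 < gap := by linarith
  have h1 := key1 hD h hε hr ht (δ := gap / (2 * (2 * π * r * aa D u ε r + 1))) (by positivity)
  rw [div_mul_eq_mul_div, le_div_iff₀ (by positivity)] at h1
  have h2 : 2 * π * (r * (gap / (2 * (2 * π * r * aa D u ε r + 1)))) * aa D u ε r < gap := by
    have : 2 * π * (r * (gap / (2 * (2 * π * r * aa D u ε r + 1)))) * aa D u ε r =
        gap * ((2 * π * r * aa D u ε r) / (2 * (2 * π * r * aa D u ε r + 1))) := by
      field_simp
    rw [this]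
    have h3 : (2 * π * r * aa D u ε r) / (2 * (2 * π * r * aa D u ε r + 1)) < 1 := by
      have : 0 ≤ 2 * π * r * aa D u ε r := by positivity
      rw [div_lt_one (by positivity)]
      linarith
    calc gap * _ < gap * 1 := mul_lt_mul_of_pos_left h3 hg
      _ = gap := mul_one _
  linarith

/-- comparison of increments -/
theorem comp {f f' g g' : ℝ → ℝ} {a b : ℝ} (hab : a ≤ b)
    (hf : ∀ x ∈ Icc a b, HasDerivAt f (f' x) x) (hg : ∀ x ∈ Icc a b, HasDerivAt g (g' x) x)
    (h : ∀ x ∈ Ioo a b, g' x ≤ f' x) : g b - g a ≤ f b - f a := by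
  rcases eq_or_lt_of_le hab with h3 | h3
  · rw [h3]; simp
  · obtain ⟨x, hx, hx'⟩ := exists_hasDerivAt_eq_slope (fun x => f x - g x) (fun x => f' x - g' x) h3
      (fun y hy => ((hf y hy).sub (hg y hy)).continuousAt.continuousWithinAt)
      (fun y hy => (hf y (Ioo_subset_Icc_self hy)).sub (hg y (Ioo_subset_Icc_self hy)))
    have h4 := h x hx
    rw [eq_div_iff (by linarith)] at hx'
    nlinarith [mul_nonneg (sub_nonneg.2 h4) (sub_nonneg.2 hab)]

/-- the induction: a subsolution of the differential inequality stays below the flux -/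
theorem induct (hD : IsOpen D) (h : Pool.Agent.T6.H57.MG.IsSolution D u) {r0 : ℝ} (hr0 : 0 < r0)
    (hcirc : ∀ r, r0 ≤ r → ∃ t, pt r t ∉ D) {G G' : ℝ → ℝ}
    (hG : ∀ x, r0 ≤ x → HasDerivAt G (G' x) x) (hG' : ∀ x, r0 ≤ x → 0 ≤ G' x)
    (hode : ∀ x, r0 ≤ x → (x * angle D x + G' x) * G' x ≤ 2 * π * G x)
    {ε : ℝ} (hε : 0 < ε) {δ : ℝ} (hδ : 0 < δ) (h0 : G r0 + δ ≤ FF D u ε r0) (j : ℕ) :
    ∀ s, r0 ≤ s → G s ≤ G r0 + j * δ → G s ≤ FF D u (ε / 2 ^ j) s := by
  have hpi := Real.pi_pos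
  have hang : ∀ x, 0 ≤ angle D x := fun x => measureReal_nonneg
  have hmonG : ∀ x y, r0 ≤ x → x ≤ y → G x ≤ G y := by
    intro x y hx hxy
    have := comp (f := G) (f' := G') (g := fun _ => 0) (g' := fun _ => 0) hxy
      (fun z hz => hG z (hx.trans hz.1)) (fun z _ => hasDerivAt_const z 0)
      (fun z hz => hG' z (hx.trans hz.1.le))
    simpa using this
  have hmon : ∀ j : ℕ, FF D u ε r0 ≤ FF D u (ε / 2 ^ j) r0 := by
    intro j
    induction j with
    | zero => simp
    | succ j ih =>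
      refine ih.trans ?_
      have := Pool.Agent.T6.H57.MG.FF_half hD h (show 0 < ε / 2 ^ j by positivity) hr0.le
      rw [div_div, ← pow_succ] at this
      exact this
  induction j with
  | zero =>
    intro s h1 h2
    have h3 := Pool.Agent.T6.H57.MG.FF_mono hD h hε hr0.le h1
    simp only [pow_zero, div_one]
    simp only [Nat.cast_zero, zero_mul, add_zero] at h2
    linarith
  | succ j ih =>
    intro s h1 h2
    have hεj : 0 < ε / 2 ^ j := by positivity
    have hεj1 : 0 < ε / 2 ^ (j + 1) := by positivity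
    have main : ∀ s, r0 ≤ s → G s ≤ G r0 + j * δ → G s + δ ≤ FF D u (ε / 2 ^ (j + 1)) s := by
      intro s h1 h2
      have hder : ∀ x ∈ Ioo r0 s, G' x ≤ aa D u (ε / 2 ^ (j + 1)) x := by
        intro x hx
        have hx0 : 0 < x := hr0.trans hx.1
        have h3 := ih x hx.1.le ((hmonG x s hx.1.le hx.2.le).trans h2)
        obtain ⟨t, ht⟩ := hcirc x hx.1.le
        have h4 := key hD h hεj hx0 ht
        have h5 := Pool.Agent.T6.H57.MG.aa_half hD h hεj hx0.le
        rw [div_div, ← pow_succ] at h4 h5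
        have h6 := Pool.Agent.T6.H57.MG.aa_nonneg (D := D) (u := u) (ε / 2 ^ j) hx0.le
        have h7 := Pool.Agent.T6.H57.MG.aa_nonneg (D := D) (u := u) (ε / 2 ^ (j + 1)) hx0.le
        have h8 := hode x hx.1.le
        have h9 := hang x
        by_contra hcon
        push Not at hcon
        set b := aa D u (ε / 2 ^ (j + 1)) x
        set a := aa D u (ε / 2 ^ j) x
        have h10 : (x * angle D x + b) * a ≤ (x * angle D x + b) * b :=
          mul_le_mul_of_nonneg_left h5 (by positivity)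
        have h11 : x * angle D x * b ≤ x * angle D x * G' x :=
          mul_le_mul_of_nonneg_left hcon.le (by positivity)
        have h12 : b * b < G' x * G' x := mul_self_lt_mul_self h7 hcon
        have h13 : 2 * π * G x ≤ 2 * π * FF D u (ε / 2 ^ j) x :=
          mul_le_mul_of_nonneg_left h3 (by positivity)
        nlinarith
      have h3 := comp (f := FF D u (ε / 2 ^ (j + 1))) (g := G) (g' := G') h1
        (fun x _ => Pool.Agent.T6.H57.MG.FF_hasDerivAt hD h hεj1 x) (fun x hx => hG x hx.1) hder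
      have h4 := hmon (j + 1)
      linarith
    rcases le_total (G s) (G r0 + j * δ) with h3 | h3
    · have := main s h1 h3
      linarith
    · have hcont : ContinuousOn G (Icc r0 s) := fun x hx =>
        (hG x hx.1).continuousAt.continuousWithinAt
      have hjδ : 0 ≤ (j : ℝ) * δ := by positivity
      obtain ⟨T, hT, hT2⟩ := intermediate_value_Icc h1 hcont
        (show G r0 + j * δ ∈ Icc (G r0) (G s) from ⟨by linarith, h3⟩)
      have h4 := main T hT.1 hT2.le
      have h5 := Pool.Agent.T6.H57.MG.FF_mono hD h hεj1 (hr0.le.trans hT.1) hT.2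
      rw [hT2] at h4
      push_cast at h2
      linarith

/-- a lower bound for the flux gives a lower bound for the maximum -/
theorem final (hD : IsOpen D) (h : Pool.Agent.T6.H57.MG.IsSolution D u) {r : ℝ} (hrpos : 0 < r)
    {g : ℝ} (hg : 0 < g) (hex : ∃ δ > 0, g ≤ FF D u δ (r / 2)) :
    ∃ t, √(g / (4 * π)) ≤ ut D u (pt r t) := by
  have hpi := Real.pi_pos
  by_contra hcon
  push Not at hcon
  set m := √(g / (4 * π)) with hm
  have hmsq : m ^ 2 = g / (4 * π) := by
    rw [hm, Real.sq_sqrt (by positivity)]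
  obtain ⟨t0, -, ht0⟩ := (isCompact_Icc (a := (0 : ℝ)) (b := 2 * π)).exists_isMaxOn
    ⟨0, by constructor <;> positivity⟩
    ((Pool.Agent.T6.H57.MG.ut_cont h).comp (Pool.Agent.T6.H57.MG.pt_θ_cont r)).continuousOn
  set m' := ut D u (pt r t0) with hm'
  have hm'lt : m' < m := hcon t0
  have hm'0 : 0 ≤ m' := Pool.Agent.T6.H57.MG.ut_nonneg h _
  have hle : ∀ θ, ut D u (pt r θ) ≤ m' := by
    intro θ
    obtain ⟨y, hy, hy'⟩ := (show Function.Periodic (fun θ => ut D u (pt r θ)) (2 * π) from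
      fun θ => by simp only [Pool.Agent.T6.H57.MG.pt_per]).exists_mem_Ico₀ (by positivity) θ
    rw [hy']
    exact ht0 ⟨hy.1, hy.2.le⟩
  have hall : ∀ s, 0 ≤ s → s ≤ r → ∀ θ, ut D u (pt s θ) ≤ m' := fun s hs0 hs θ =>
    Pool.Agent.T6.H57.MG.max_princ hD h hrpos hle hs0 hs θ
  obtain ⟨δ, hδ, hδ2⟩ := hex
  have hFpos : 0 < FF D u δ (r / 2) := lt_of_lt_of_le hg hδ2
  have hm'pos : 0 < m' := by
    by_contra hc0
    have h0 : m' = 0 := le_antisymm (not_lt.1 hc0) hm'0
    have h1 := Pool.Agent.T6.H57.MG.cacc_sq hD h hδ (r := r / 2) (by positivity)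
      (hall (r / 2) (by positivity) (by linarith))
    rw [h0] at h1
    have h2 : 2 * π * (r / 2) * (0 : ℝ) ^ 2 * aa D u δ (r / 2) = 0 := by ring
    rw [h2] at h1
    nlinarith
  have hFp : ∀ x ∈ Icc (r / 2) r, 0 < FF D u δ x := fun x hx =>
    hFpos.trans_le (Pool.Agent.T6.H57.MG.FF_mono hD h hδ (by positivity) hx.1)
  set K := 2 * π * r * m' ^ 2 with hK
  have hKpos : 0 < K := by positivity
  obtain ⟨x, hx, hx'⟩ := exists_hasDerivAt_eq_slope (fun s => (FF D u δ s)⁻¹)
    (fun s => -(aa D u δ s) / (FF D u δ s) ^ 2) (show r / 2 < r by linarith)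
    (fun y hy => ((Pool.Agent.T6.H57.MG.FF_hasDerivAt hD h hδ y).continuousAt.inv₀
      (hFp y hy).ne').continuousWithinAt)
    (fun y hy => (Pool.Agent.T6.H57.MG.FF_hasDerivAt hD h hδ y).inv (hFp y ⟨hy.1.le, hy.2.le⟩).ne')
  have hx0 : 0 < x := by linarith [hx.1]
  have h1 := Pool.Agent.T6.H57.MG.cacc_sq hD h hδ hx0 (hall x hx0.le hx.2.le)
  have hFx := hFp x ⟨hx.1.le, hx.2.le⟩
  have hax := Pool.Agent.T6.H57.MG.aa_nonneg (D := D) (u := u) δ hx0.le
  have h2 : FF D u δ x ^ 2 ≤ K * aa D u δ x := by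
    refine h1.trans ?_
    apply mul_le_mul_of_nonneg_right _ hax
    rw [hK]
    apply mul_le_mul_of_nonneg_right _ (sq_nonneg _)
    exact mul_le_mul_of_nonneg_left hx.2.le (by positivity)
  have h3 : -(aa D u δ x) / (FF D u δ x) ^ 2 ≤ - (1 / K) := by
    rw [div_le_iff₀ (by positivity)]
    have : FF D u δ x ^ 2 / K ≤ aa D u δ x := by
      rw [div_le_iff₀ hKpos]
      linarith
    have h4 : -(1 / K) * FF D u δ x ^ 2 = - (FF D u δ x ^ 2 / K) := by ring
    rw [h4]
    linarith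
  rw [hx'] at h3
  rw [div_le_iff₀ (by linarith)] at h3
  have h5 : 0 < (FF D u δ r)⁻¹ := inv_pos.2 (hFp r ⟨by linarith, le_rfl⟩)
  have h6 : r / (2 * K) < (FF D u δ (r / 2))⁻¹ := by
    have : -(1 / K) * (r - r / 2) = - (r / (2 * K)) := by
      field_simp
      ring
    rw [this] at h3
    linarith
  have h7 : FF D u δ (r / 2) < 4 * π * m' ^ 2 := by
    have h8 : r / (2 * K) = 1 / (4 * π * m' ^ 2) := by
      rw [hK]
      field_simp
      ring
    rw [h8, ← one_div] at h6
    exact lt_of_one_div_lt_one_div (by positivity) h6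
  have h9 : m' ^ 2 < m ^ 2 := pow_lt_pow_left₀ hm'lt hm'0 two_ne_zero
  rw [hmsq] at h9
  have h10 : 4 * π * m' ^ 2 < 4 * π * (g / (4 * π)) :=
    mul_lt_mul_of_pos_left h9 (by positivity)
  have h11 : 4 * π * (g / (4 * π)) = g := by
    field_simp
  linarith

/-- lower growth from a profile -/
theorem growth (hD : IsOpen D) (hne : D.Nonempty) (h : Pool.Agent.T6.H57.MG.IsSolution D u)
    {ρ : ℝ} (hcirc : ∀ r, ρ ≤ r → ∃ t, pt r t ∉ D) {G G' : ℝ → ℝ}
    (hG : ∀ x, ρ ≤ x → HasDerivAt G (G' x) x) (hG' : ∀ x, ρ ≤ x → 0 ≤ G' x)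
    (hpos : ∀ x, ρ ≤ x → 0 < G x) {c0 : ℝ} (hc0 : 0 < c0)
    (hode : ∀ x, ρ ≤ x → x * angle D x * G' x + c0 * G' x ^ 2 ≤ 2 * π * G x) :
    ∃ C > 0, ∃ r0 ≥ 2 * ρ, ∀ r, r0 < r → ∃ t, C * √(G (r / 2)) ≤ ut D u (pt r t) := by
  have hpi := Real.pi_pos
  have hne2 : (Dᶜ).Nonempty := by
    obtain ⟨t, ht⟩ := hcirc ρ le_rfl
    exact ⟨_, ht⟩
  obtain ⟨ε, hε, r1, hr1, hF⟩ := Pool.Agent.T6.H57.MG.flux_pos hD hne hne2 h
  set r0 := max r1 ρ with hr0def
  have hr0 : 0 < r0 := hr1.trans_le (le_max_left _ _)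
  have hρ0 : ρ ≤ r0 := le_max_right _ _
  have hF0 : 0 < FF D u ε r0 :=
    hF.trans_le (Pool.Agent.T6.H57.MG.FF_mono hD h hε hr1.le (le_max_left _ _))
  set A := FF D u ε r0 with hA
  have hGr0 := hpos r0 hρ0
  obtain ⟨c, hc, hcc0, hc2⟩ : ∃ c > 0, c ≤ c0 ∧ c * G r0 + A / 2 ≤ A := by
    refine ⟨min c0 (A / 2 / G r0), by positivity, min_le_left _ _, ?_⟩
    have h1 : min c0 (A / 2 / G r0) ≤ A / 2 / G r0 := min_le_right _ _
    rw [le_div_iff₀ hGr0] at h1
    linarith
  have hmonG : ∀ x y, ρ ≤ x → x ≤ y → G x ≤ G y := by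
    intro x y hx hxy
    have := comp (f := G) (f' := G') (g := fun _ => 0) (g' := fun _ => 0) hxy
      (fun z hz => hG z (hx.trans hz.1)) (fun z _ => hasDerivAt_const z 0)
      (fun z hz => hG' z (hx.trans hz.1.le))
    simpa using this
  have hmain : ∀ R, r0 ≤ R → ∃ δ > 0, c * G R ≤ FF D u δ R := by
    intro R hR
    obtain ⟨j, hj⟩ := exists_nat_ge ((c * G R - c * G r0) / (A / 2))
    rw [div_le_iff₀ (by positivity)] at hj
    have := induct hD h hr0 (fun r hr => hcirc r (hρ0.trans hr)) (G := fun x => c * G x)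
      (G' := fun x => c * G' x) (fun x hx => (hG x (hρ0.trans hx)).const_mul c)
      (fun x hx => mul_nonneg hc.le (hG' x (hρ0.trans hx)))
      (fun x hx => by
        have h1 := hode x (hρ0.trans hx)
        have h2 := hG' x (hρ0.trans hx)
        have h3 : c * G' x ^ 2 ≤ c0 * G' x ^ 2 := mul_le_mul_of_nonneg_right hcc0 (sq_nonneg _)
        have h4 : c * (x * angle D x * G' x + c * G' x ^ 2) ≤ c * (2 * π * G x) :=
          mul_le_mul_of_nonneg_left (by linarith) hc.le
        show (x * angle D x + c * G' x) * (c * G' x) ≤ 2 * π * (c * G x)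
        linarith)
      hε (show 0 < A / 2 by positivity) hc2 j R hR (by
        show c * G R ≤ c * G r0 + j * (A / 2)
        linarith)
    exact ⟨ε / 2 ^ j, by positivity, this⟩
  refine ⟨√(c / (4 * π)), by positivity, 2 * r0, by linarith, ?_⟩
  intro r hr
  have hrpos : 0 < r := by linarith
  have h1 := hpos (r / 2) (by linarith)
  obtain ⟨t, ht⟩ := final hD h hrpos (g := c * G (r / 2)) (by positivity)
    (hmain (r / 2) (by linarith))
  refine ⟨t, le_trans (le_of_eq ?_) ht⟩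
  rw [← Real.sqrt_mul (by positivity)]
  congr 1
  ring

/-- passage to the maximum on the circle -/
theorem toMax (h : Pool.Agent.T6.H57.MG.IsSolution D u) {g : ℝ → ℝ} {C r0 : ℝ} (hC : 0 < C)
    (hr0 : 0 < r0) (hg : ∀ r, r0 < r → 0 < g r)
    (hmain : ∀ r, r0 < r → ∃ t, C * g r ≤ ut D u (pt r t)) : GrowsLike D u g := by
  refine ⟨C, hC, r0, hr0, fun r hr => ?_⟩
  have hrpos : 0 < r := hr0.trans hr
  obtain ⟨t, ht⟩ := hmain r hr
  have hK : IsCompact {z : ℂ | ‖z‖ = r} := by
    have := isCompact_sphere (0 : ℂ) r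
    convert this using 1
    ext z
    simp
  have htm : pt r t ∈ {z : ℂ | ‖z‖ = r} := by
    show ‖pt r t‖ = r
    rw [Pool.Agent.T6.H57.MG.norm_pt, abs_of_pos hrpos]
  obtain ⟨z, hz, hzmax⟩ := hK.exists_isMaxOn ⟨_, htm⟩
    (Pool.Agent.T6.H57.MG.ut_cont h).continuousOn
  have h1 : C * g r ≤ ut D u z := ht.trans (hzmax htm)
  have h2 : 0 < ut D u z := lt_of_lt_of_le (mul_pos hC (hg r hr)) h1
  have hzD : z ∈ D := by
    by_contra hc
    rw [Pool.Agent.T6.H57.MG.ut_not_mem hc] at h2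
    exact lt_irrefl _ h2
  rw [Pool.Agent.T6.H57.MG.ut_mem hzD] at h1
  refine ⟨u z, ⟨⟨z, ⟨hzD, hz⟩, rfl⟩, ?_⟩, h1⟩
  rintro _ ⟨w, ⟨hwD, hw⟩, rfl⟩
  have := hzmax hw
  simp only [Set.mem_ofPred_eq] at this
  rwa [Pool.Agent.T6.H57.MG.ut_mem hwD, Pool.Agent.T6.H57.MG.ut_mem hzD] at this

theorem mono {g g2 : ℝ → ℝ} {K R : ℝ} (hK : 0 < K) (hle : ∀ r, R < r → g2 r ≤ K * g r)
    (h : GrowsLike D u g) : GrowsLike D u g2 := by
  obtain ⟨C, hC, r0, hr0, hm⟩ := h
  refine ⟨C / K, by positivity, max r0 R, hr0.trans_le (le_max_left _ _), fun r hr => ?_⟩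
  obtain ⟨M, hM, h1⟩ := hm r ((le_max_left _ _).trans_lt hr)
  refine ⟨M, hM, le_trans ?_ h1⟩
  have h2 := hle r ((le_max_right _ _).trans_lt hr)
  calc C / K * g2 r ≤ C / K * (K * g r) := mul_le_mul_of_nonneg_left h2 (by positivity)
    _ = C * g r := by field_simp

theorem conv (hu : IsSolution D u) : Pool.Agent.T6.H57.MG.IsSolution D u :=
  ⟨hu.smooth, hu.cont, hu.mse, hu.pos, hu.bdry⟩

theorem circ {ρ : ℝ} (hcirc : ∀ r, ρ ≤ r → ∃ z : ℂ, ‖z‖ = r ∧ z ∉ D) :
    ∀ r, ρ ≤ r → ∃ t, pt r t ∉ D := by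
  intro r hr
  obtain ⟨z, hz, hzD⟩ := hcirc r hr
  refine ⟨z.arg, ?_⟩
  rw [← hz, Pool.Agent.T6.H57.MG.pt_arg]
  exact hzD

theorem part1 (hD : IsOpen D) (hne : D.Nonempty) {ρ : ℝ} (hρ : 1 ≤ ρ)
    (hcirc : ∀ r, ρ ≤ r → ∃ z : ℂ, ‖z‖ = r ∧ z ∉ D) (hu : IsSolution D u)
    (φ : ℝ → ℝ) (κ : ℝ) (hφ : Continuous φ) (hκ : 0 < κ)
    (hφb : ∀ r, ρ ≤ r → π + κ ≤ φ r ∧ φ r ≤ 2 * π ∧ angle D r ≤ φ r) :
    GrowsLike D u (fun r => Real.exp (π * ∫ t in ρ..r, 1 / (t * φ t))) := by
  have hpi := Real.pi_pos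
  have hρ0 : 0 < ρ := by linarith
  set ψ : ℝ → ℝ := fun t => 1 / (max t ρ * max (φ t) (π + κ)) with hψ
  have hψc : Continuous ψ := by
    refine continuous_const.div ((continuous_id.max continuous_const).mul
      (hφ.max continuous_const)) fun t => ?_
    have h1 : 0 < max t ρ := lt_max_of_lt_right hρ0
    have h2 : 0 < max (φ t) (π + κ) := lt_max_of_lt_right (by positivity)
    exact (mul_pos h1 h2).ne'
  have hψe : ∀ x, ρ ≤ x → ψ x = 1 / (x * φ x) := by
    intro x hx
    show 1 / (max x ρ * max (φ x) (π + κ)) = _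
    rw [max_eq_left hx, max_eq_left (hφb x hx).1]
  set I : ℝ → ℝ := fun x => ∫ t in ρ..x, ψ t with hI
  have hId : ∀ x, HasDerivAt I (ψ x) x := fun x => (hψc.integral_hasStrictDerivAt ρ x).hasDerivAt
  have hIρ : I ρ = 0 := intervalIntegral.integral_same
  set E : ℝ → ℝ := fun x => Real.exp (2 * π * I x) with hEdef
  have hE : ∀ x, HasDerivAt E (E x * (2 * π * ψ x)) x := fun x => ((hId x).const_mul (2 * π)).exp
  have hEpos : ∀ x, 0 < E x := fun x => Real.exp_pos _
  -- bounds for `q = 2 π / φ`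
  have hq : ∀ x, ρ ≤ x → 2 * π * ψ x = (2 * π / φ x) / x := by
    intro x hx
    rw [hψe x hx]
    have h1 : 0 < x := hρ0.trans_le hx
    have h2 : 0 < φ x := by linarith [(hφb x hx).1]
    field_simp
  have hq1 : ∀ x, ρ ≤ x → 1 ≤ 2 * π / φ x := by
    intro x hx
    have h2 : 0 < φ x := by linarith [(hφb x hx).1]
    rw [le_div_iff₀ h2]
    linarith [(hφb x hx).2.1]
  have hq2 : ∀ x, ρ ≤ x → 2 * π / φ x ≤ 2 := by
    intro x hx
    have h2 : 0 < φ x := by linarith [(hφb x hx).1]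
    rw [div_le_iff₀ h2]
    linarith [(hφb x hx).1]
  have hEle : ∀ x, ρ ≤ x → E x ≤ x ^ 2 := by
    intro x hx
    have hx0 : 0 < x := hρ0.trans_le hx
    have h1 := comp (f := fun x => 2 * Real.log x) (f' := fun x => 2 * x⁻¹)
      (g := fun x => 2 * π * I x) (g' := fun x => 2 * π * ψ x) hx
      (fun y hy => (Real.hasDerivAt_log (hρ0.trans_le hy.1).ne').const_mul 2)
      (fun y hy => (hId y).const_mul (2 * π))
      (fun y hy => by
        rw [hq y hy.1.le, div_eq_mul_inv]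
        exact mul_le_mul_of_nonneg_right (hq2 y hy.1.le) (inv_nonneg.2 (hρ0.trans hy.1).le))
    simp only [hIρ, mul_zero, sub_zero] at h1
    have h2 : 0 ≤ Real.log ρ := Real.log_nonneg hρ
    have h3 : 2 * π * I x ≤ 2 * Real.log x := by linarith
    calc E x ≤ Real.exp (2 * Real.log x) := Real.exp_le_exp.2 h3
      _ = x ^ 2 := by
        rw [show 2 * Real.log x = Real.log x + Real.log x by ring, Real.exp_add, Real.exp_log hx0]
        ring
  set G : ℝ → ℝ := fun x => E x + E x ^ 2 / x ^ 2 with hG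
  set G' : ℝ → ℝ := fun x => E x * (2 * π * ψ x) +
    ((2 * E x ^ (2 - 1) * (E x * (2 * π * ψ x))) * x ^ 2 - E x ^ 2 * (2 * x ^ (2 - 1) * 1)) /
      (x ^ 2) ^ 2 with hG'
  have hGd : ∀ x, ρ ≤ x → HasDerivAt G (G' x) x := by
    intro x hx
    have hx0 : x ^ 2 ≠ 0 := by
      have := hρ0.trans_le hx
      positivity
    have h1 := ((hE x).pow 2).div ((hasDerivAt_id x).pow 2) hx0
    exact (hE x).add h1
  have hG'e : ∀ x, ρ ≤ x → G' x = E x / x *
      (2 * π / φ x + E x / x ^ 2 * (2 * (2 * π / φ x) - 2)) := by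
    intro x hx
    have hx0 : 0 < x := hρ0.trans_le hx
    show E x * (2 * π * ψ x) +
      ((2 * E x ^ (2 - 1) * (E x * (2 * π * ψ x))) * x ^ 2 - E x ^ 2 * (2 * x ^ (2 - 1) * 1)) /
      (x ^ 2) ^ 2 = _
    rw [hq x hx]
    generalize 2 * π / φ x = q
    field_simp
    ring
  have hy1 : ∀ x, ρ ≤ x → E x / x ^ 2 ≤ 1 := by
    intro x hx
    have hx0 : 0 < x := hρ0.trans_le hx
    rw [div_le_one (by positivity)]
    exact hEle x hx
  have hGrow := growth hD hne (conv hu) (circ hcirc) (G := G) (G' := G') hGd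
    (fun x hx => by
      have hx0 : 0 < x := hρ0.trans_le hx
      rw [hG'e x hx]
      have h1 := hq1 x hx
      have h2 := hEpos x
      have h3 : 0 ≤ 2 * (2 * π / φ x) - 2 := by linarith
      positivity)
    (fun x hx => by
      have hx0 : 0 < x := hρ0.trans_le hx
      have h2 := hEpos x
      show 0 < E x + E x ^ 2 / x ^ 2
      positivity)
    (c0 := κ / 8) (by positivity)
    (fun x hx => by
      have hx0 : 0 < x := hρ0.trans_le hx
      have hφx := hφb x hx
      have hφ0 : 0 < φ x := by linarith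
      have h1 := hq1 x hx
      have h2 := hq2 x hx
      have hE0 := hEpos x
      have hy := hy1 x hx
      have hy0 : 0 < E x / x ^ 2 := by positivity
      have e1 : φ x * (2 * π / φ x) = 2 * π := by field_simp
      have hang : 0 ≤ angle D x := measureReal_nonneg
      rw [hG'e x hx]
      show x * angle D x * (E x / x * (2 * π / φ x + E x / x ^ 2 * (2 * (2 * π / φ x) - 2))) +
        κ / 8 * (E x / x * (2 * π / φ x + E x / x ^ 2 * (2 * (2 * π / φ x) - 2))) ^ 2 ≤
        2 * π * (E x + E x ^ 2 / x ^ 2)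
      generalize hqd : 2 * π / φ x = q at *
      have e2 : E x ^ 2 / x ^ 2 = E x * (E x / x ^ 2) := by ring
      have e3 : (E x / x * (q + E x / x ^ 2 * (2 * q - 2))) ^ 2 =
          (E x * (E x / x ^ 2)) * (q + E x / x ^ 2 * (2 * q - 2)) ^ 2 := by
        field_simp
      have e4 : x * angle D x * (E x / x * (q + E x / x ^ 2 * (2 * q - 2))) =
          angle D x * (E x * (q + E x / x ^ 2 * (2 * q - 2))) := by
        field_simp
      rw [e2, e3, e4]
      generalize E x / x ^ 2 = y at *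
      generalize E x = e at *
      have h5 : 0 ≤ q + y * (2 * q - 2) := by nlinarith
      have h6 : q + y * (2 * q - 2) ≤ 4 := by nlinarith
      have h7 : angle D x * (e * (q + y * (2 * q - 2))) ≤ φ x * (e * (q + y * (2 * q - 2))) :=
        mul_le_mul_of_nonneg_right hφx.2.2 (by positivity)
      have h8 : φ x * (e * (q + y * (2 * q - 2))) = 2 * π * e + e * y * (4 * π - 2 * φ x) := by
        have : φ x * (e * (q + y * (2 * q - 2))) =
          (φ x * q) * e + e * y * (2 * (φ x * q) - 2 * φ x) := by ring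
        rw [this, e1]
        ring
      have h9 : (q + y * (2 * q - 2)) ^ 2 ≤ 16 := by nlinarith
      have h10 : κ / 8 * (e * y * (q + y * (2 * q - 2)) ^ 2) ≤ κ / 8 * (e * y * 16) := by
        apply mul_le_mul_of_nonneg_left _ (by positivity)
        exact mul_le_mul_of_nonneg_left h9 (by positivity)
      have h11 : 0 ≤ e * y * (φ x - π - κ) := mul_nonneg (by positivity) (by linarith [hφx.1])
      linarith)
  obtain ⟨C, hC, r0, hr0, hm⟩ := hGrow
  have key2 : GrowsLike D u (fun r => √(G (r / 2))) := by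
    refine toMax (conv hu) (C := C) (r0 := r0) hC (by linarith) (fun r hr => ?_) hm
    have h2 := hEpos (r / 2)
    have : 0 < r := by linarith
    apply Real.sqrt_pos.2
    show 0 < E (r / 2) + E (r / 2) ^ 2 / (r / 2) ^ 2
    positivity
  refine mono (K := 2) (R := 2 * ρ) two_pos (fun r hr => ?_) key2
  have hr2 : ρ ≤ r / 2 := by linarith
  have e1 : ∫ t in ρ..r, 1 / (t * φ t) = I r := by
    apply intervalIntegral.integral_congr
    intro t ht
    rw [uIcc_of_le (by linarith)] at ht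
    exact (hψe t ht.1).symm
  rw [e1]
  have h1 := comp (f := fun x => Real.log x) (f' := fun x => x⁻¹)
      (g := fun x => π * I x) (g' := fun x => π * ψ x) (show r / 2 ≤ r by linarith)
      (fun y hy => (Real.hasDerivAt_log (by linarith [hy.1] : (0:ℝ) < y).ne'))
      (fun y hy => (hId y).const_mul π)
      (fun y hy => by
        have hyρ : ρ ≤ y := by linarith [hy.1]
        have h2 := hq y hyρ
        have h3 := hq2 y hyρ
        have hy0 : 0 < y := by linarith
        have h4 : (2 * π / φ y) / y ≤ 2 / y := div_le_div_of_nonneg_right h3 hy0.le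
        have h5 : 2 / y = 2 * y⁻¹ := div_eq_mul_inv _ _
        linarith)
  have h2 : Real.log r - Real.log (r / 2) = Real.log 2 := by
    rw [Real.log_div (by linarith : (0:ℝ) < r).ne' two_ne_zero]
    ring
  have h3 : π * I r ≤ Real.log 2 + π * I (r / 2) := by
    have : π * I r - π * I (r / 2) ≤ Real.log r - Real.log (r / 2) := h1
    linarith
  have h4 : Real.exp (π * I r) ≤ 2 * Real.exp (π * I (r / 2)) := by
    calc Real.exp (π * I r) ≤ Real.exp (Real.log 2 + π * I (r / 2)) := Real.exp_le_exp.2 h3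
      _ = 2 * Real.exp (π * I (r / 2)) := by rw [Real.exp_add, Real.exp_log two_pos]
  refine h4.trans (mul_le_mul_of_nonneg_left ?_ two_pos.le)
  apply Real.le_sqrt_of_sq_le
  have h5 : Real.exp (π * I (r / 2)) ^ 2 = E (r / 2) := by
    rw [← Real.exp_nat_mul]
    congr 1
    push_cast
    ring
  rw [h5]
  have : 0 ≤ E (r / 2) ^ 2 / (r / 2) ^ 2 := by positivity
  show E (r / 2) ≤ E (r / 2) + E (r / 2) ^ 2 / (r / 2) ^ 2
  linarith

theorem part2 (hD : IsOpen D) (hne : D.Nonempty) {ρ : ℝ} (hρ : 1 ≤ ρ)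
    (hcirc : ∀ r, ρ ≤ r → ∃ z : ℂ, ‖z‖ = r ∧ z ∉ D) (hu : IsSolution D u)
    (α : ℝ) (hα : π < α) (hα2 : α ≤ 2 * π) (hφb : ∀ r, ρ ≤ r → angle D r ≤ α) :
    GrowsLike D u (fun r => r ^ (π / α)) := by
  have hpi := Real.pi_pos
  have hρ0 : 0 < ρ := by linarith
  have h := part1 hD hne hρ hcirc hu (fun _ => α) (α - π) continuous_const (by linarith)
    (fun r hr => ⟨by linarith, hα2, hφb r hr⟩)
  refine mono (K := ρ ^ (π / α)) (R := ρ) (by positivity) (fun r hr => ?_) h
  have hr0 : 0 < r := hρ0.trans hr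
  have e1 : ∫ t in ρ..r, 1 / (t * α) = (Real.log r - Real.log ρ) / α := by
    have : (fun t : ℝ => 1 / (t * α)) = fun t => 1 / α * t⁻¹ := by
      funext t
      rw [one_div, mul_inv, one_div, mul_comm]
    rw [this, intervalIntegral.integral_const_mul, integral_inv_of_pos hρ0 hr0,
      Real.log_div hr0.ne' hρ0.ne']
    ring
  show r ^ (π / α) ≤ ρ ^ (π / α) * Real.exp (π * ∫ t in ρ..r, 1 / (t * α))
  rw [e1, Real.rpow_def_of_pos hr0, Real.rpow_def_of_pos hρ0, ← Real.exp_add]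
  apply le_of_eq
  congr 1
  have : 0 < α := by linarith
  field_simp
  ring

theorem part3 (hD : IsOpen D) (hne : D.Nonempty) {ρ : ℝ} (hρ : 1 ≤ ρ)
    (hcirc : ∀ r, ρ ≤ r → ∃ z : ℂ, ‖z‖ = r ∧ z ∉ D) (hu : IsSolution D u)
    (α : ℝ) (hα : α < π) (hφb : ∀ r, ρ ≤ r → angle D r ≤ α) :
    GrowsLike D u (fun r => r) := by
  have hpi := Real.pi_pos
  obtain ⟨C, hC, r0, hr0, hm⟩ := growth hD hne (conv hu) (circ hcirc) (G := fun x => x ^ 2)
    (G' := fun x => 2 * x) (fun x hx => by simpa using hasDerivAt_pow 2 x)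
    (fun x hx => by
      have : 0 < x := by linarith
      positivity)
    (fun x hx => by
      have : 0 < x := by linarith
      positivity)
    (c0 := (π - α) / 2) (by linarith)
    (fun x hx => by
      have h1 := hφb x hx
      have h2 : (angle D x) * (2 * x ^ 2) ≤ α * (2 * x ^ 2) :=
        mul_le_mul_of_nonneg_right h1 (by positivity)
      show x * angle D x * (2 * x) + (π - α) / 2 * (2 * x) ^ 2 ≤ 2 * π * x ^ 2
      nlinarith)
  refine toMax (conv hu) (C := C / 2) (r0 := r0) (by positivity) (by linarith)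
    (fun r hr => by linarith) (fun r hr => ?_)
  obtain ⟨t, ht⟩ := hm r hr
  refine ⟨t, le_trans (le_of_eq ?_) ht⟩
  show C / 2 * r = C * √((r / 2) ^ 2)
  rw [Real.sqrt_sq (by linarith)]
  ring

theorem part4 (hD : IsOpen D) (hne : D.Nonempty) {ρ : ℝ} (hρ : 1 ≤ ρ)
    (hcirc : ∀ r, ρ ≤ r → ∃ z : ℂ, ‖z‖ = r ∧ z ∉ D) (hu : IsSolution D u)
    (hφb : ∀ r, ρ ≤ r → angle D r ≤ π) :
    GrowsLike D u (fun r => r / √(Real.log r)) := by
  have hpi := Real.pi_pos
  have hlog : ∀ x, ρ ≤ x → 0 ≤ Real.log x := fun x hx => Real.log_nonneg (hρ.trans hx)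
  set G' : ℝ → ℝ := fun x => (2 * x * (1 + Real.log x) - x ^ 2 * x⁻¹) / (1 + Real.log x) ^ 2
    with hG'
  have hG'e : ∀ x, ρ ≤ x → G' x = x * (1 + 2 * Real.log x) / (1 + Real.log x) ^ 2 := by
    intro x hx
    have hx0 : 0 < x := by linarith
    show (2 * x * (1 + Real.log x) - x ^ 2 * x⁻¹) / (1 + Real.log x) ^ 2 = _
    congr 1
    field_simp
    ring
  obtain ⟨C, hC, r0, hr0, hm⟩ := growth hD hne (conv hu) (circ hcirc)
    (G := fun x => x ^ 2 / (1 + Real.log x)) (G' := G')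
    (fun x hx => by
      have hx0 : 0 < x := by linarith
      have hl := hlog x hx
      have h1 : HasDerivAt (fun x : ℝ => x ^ 2) (2 * x) x := by simpa using hasDerivAt_pow 2 x
      have h2 : HasDerivAt (fun x : ℝ => 1 + Real.log x) (x⁻¹) x :=
        (Real.hasDerivAt_log hx0.ne').const_add 1
      exact h1.div h2 (by positivity))
    (fun x hx => by
      have hx0 : 0 < x := by linarith
      have hl := hlog x hx
      rw [hG'e x hx]
      positivity)
    (fun x hx => by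
      have hx0 : 0 < x := by linarith
      have hl := hlog x hx
      show 0 < x ^ 2 / (1 + Real.log x)
      positivity)
    (c0 := π / 4) (by positivity)
    (fun x hx => by
      have hx0 : 0 < x := by linarith
      have hl := hlog x hx
      have h1 := hφb x hx
      rw [hG'e x hx]
      show x * angle D x * (x * (1 + 2 * Real.log x) / (1 + Real.log x) ^ 2) + π / 4 *
        (x * (1 + 2 * Real.log x) / (1 + Real.log x) ^ 2) ^ 2 ≤ 2 * π * (x ^ 2 / (1 + Real.log x))
      generalize Real.log x = L at *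
      have h2 : x * angle D x * (x * (1 + 2 * L) / (1 + L) ^ 2) ≤
          π * (x ^ 2 * (1 + 2 * L) / (1 + L) ^ 2) := by
        have : x * angle D x * (x * (1 + 2 * L) / (1 + L) ^ 2) =
          angle D x * (x ^ 2 * (1 + 2 * L) / (1 + L) ^ 2) := by ring
        rw [this]
        exact mul_le_mul_of_nonneg_right h1 (by positivity)
      have h3 : (x * (1 + 2 * L) / (1 + L) ^ 2) ^ 2 ≤ 4 * (x ^ 2 / (1 + L) ^ 2) := by
        have h4 : (1 + 2 * L) / (1 + L) ≤ 2 := by
          rw [div_le_iff₀ (by positivity)]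
          linarith
        have h5 : (x * (1 + 2 * L) / (1 + L) ^ 2) ^ 2 =
          ((1 + 2 * L) / (1 + L)) ^ 2 * (x ^ 2 / (1 + L) ^ 2) := by
          field_simp
        rw [h5]
        apply mul_le_mul_of_nonneg_right _ (by positivity)
        have : 0 ≤ (1 + 2 * L) / (1 + L) := by positivity
        nlinarith
      have h6 : 2 * π * (x ^ 2 / (1 + L)) =
          π * (x ^ 2 * (1 + 2 * L) / (1 + L) ^ 2) + π * (x ^ 2 / (1 + L) ^ 2) := by
        field_simp
        ring
      have h7 := mul_le_mul_of_nonneg_left h3 (show 0 ≤ π / 4 by positivity)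
      linarith)
  refine toMax (conv hu) (C := C / 4) (r0 := max r0 (Real.exp 1)) (by positivity)
    (by positivity) (fun r hr => ?_) (fun r hr => ?_)
  · have h1 : Real.exp 1 < r := (le_max_right _ _).trans_lt hr
    have h2 : 0 < r := (Real.exp_pos 1).trans h1
    have h3 : 1 < Real.log r := (Real.lt_log_iff_exp_lt h2).2 h1
    positivity
  · obtain ⟨t, ht⟩ := hm r ((le_max_left _ _).trans_lt hr)
    refine ⟨t, le_trans ?_ ht⟩
    have h1 : Real.exp 1 < r := (le_max_right _ _).trans_lt hr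
    have h2 : 0 < r := (Real.exp_pos 1).trans h1
    have h3 : 1 < Real.log r := (Real.lt_log_iff_exp_lt h2).2 h1
    have hr0' : r0 < r := (le_max_left _ _).trans_lt hr
    have h4 : 0 ≤ Real.log (r / 2) := hlog _ (by linarith)
    have h5 : Real.log (r / 2) ≤ Real.log r :=
      Real.log_le_log (by positivity) (by linarith)
    show C / 4 * (r / √(Real.log r)) ≤ C * √((r / 2) ^ 2 / (1 + Real.log (r / 2)))
    rw [Real.sqrt_div (by positivity), Real.sqrt_sq (by positivity)]
    have h6 : √(1 + Real.log (r / 2)) ≤ 2 * √(Real.log r) := by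
      have : (2 : ℝ) * √(Real.log r) = √(4 * Real.log r) := by
        rw [Real.sqrt_mul (by norm_num), show (4 : ℝ) = 2 ^ 2 by norm_num,
          Real.sqrt_sq (by norm_num)]
      rw [this]
      exact Real.sqrt_le_sqrt (by linarith)
    have h7 : 0 < √(1 + Real.log (r / 2)) := Real.sqrt_pos.2 (by linarith)
    have h8 : 0 < √(Real.log r) := Real.sqrt_pos.2 (by linarith)
    have h9 : r / 2 / (2 * √(Real.log r)) ≤ r / 2 / √(1 + Real.log (r / 2)) :=
      div_le_div_of_nonneg_left (by positivity) h7 h6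
    calc C / 4 * (r / √(Real.log r)) = C * (r / 2 / (2 * √(Real.log r))) := by
          field_simp
          norm_num
      _ ≤ _ := mul_le_mul_of_nonneg_left h9 hC.le

theorem angle_le (r : ℝ) : angle D r ≤ 2 * π := by
  have hpi := Real.pi_pos
  unfold angle
  have h1 : volume.real (Ico (0 : ℝ) (2 * π)) = 2 * π := by
    rw [Real.volume_real_Ico_of_le (by positivity)]
    ring
  calc _ ≤ volume.real (Ico (0 : ℝ) (2 * π)) :=
        measureReal_mono (fun θ hθ => hθ.1) measure_Ico_lt_top.ne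
    _ = 2 * π := h1

end proof

/-- **Lower growth of minimal graphs and angular measure.**

(a) If `D` is an open set whose boundary is a Jordan arc, no large circle `|z| = r` is contained
in `D`.

(b) Let `D` be a nonempty open set such that no circle `|z| = r`, `r ≥ ρ`, is contained in `D`
(`ρ ≥ 1`), and let `u` be a positive solution of the minimal surface equation in `D` with zero
boundary values.  Let `Θ(r)` be the angular measure of `D ∩ {|z| = r}`.  Then:

(b1) if `φ` is continuous, `κ > 0` and `max (π + κ, Θ(r)) ≤ φ(r) ≤ 2π` for all `r ≥ ρ`, then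
`M(r) ≥ C exp (π ∫_ρ^r dt / (t φ(t)))` for all large `r`;

(b2) if `π < α ≤ 2π` and `Θ(r) ≤ α` for all `r ≥ ρ`, then `M(r) ≥ C r^(π/α)` for all large `r`;

(b3) if `α < π` and `Θ(r) ≤ α` for all `r ≥ ρ`, then `M(r) ≥ C r` for all large `r`;

(b4) if `Θ(r) ≤ π` for all `r ≥ ρ`, then `M(r) ≥ C r / √(log r)` for all large `r`;

(b5) without any assumption on `Θ`, `M(r) ≥ C √r` for all large `r`. -/
theorem result :
    (∀ (D : Set ℂ) (γ : ℝ → ℂ), IsOpen D → IsJordanArc γ → frontier D = range γ →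
      ∀ r, ‖γ 0‖ ≤ r → ∃ z : ℂ, ‖z‖ = r ∧ z ∉ D) ∧
    (∀ D : Set ℂ, IsOpen D → D.Nonempty → ∀ ρ : ℝ, 1 ≤ ρ →
      (∀ r, ρ ≤ r → ∃ z : ℂ, ‖z‖ = r ∧ z ∉ D) → ∀ u : ℂ → ℝ, IsSolution D u →
      (∀ (φ : ℝ → ℝ) (κ : ℝ), Continuous φ → 0 < κ →
        (∀ r, ρ ≤ r → π + κ ≤ φ r ∧ φ r ≤ 2 * π ∧ angle D r ≤ φ r) →
        GrowsLike D u (fun r => Real.exp (π * ∫ t in ρ..r, 1 / (t * φ t)))) ∧
      (∀ α : ℝ, π < α → α ≤ 2 * π → (∀ r, ρ ≤ r → angle D r ≤ α) →
        GrowsLike D u (fun r => r ^ (π / α))) ∧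
      (∀ α : ℝ, α < π → (∀ r, ρ ≤ r → angle D r ≤ α) → GrowsLike D u (fun r => r)) ∧
      ((∀ r, ρ ≤ r → angle D r ≤ π) → GrowsLike D u (fun r => r / √(Real.log r))) ∧
      GrowsLike D u (fun r => √r)) := by
  refine ⟨?_, fun D hD hne ρ hρ hcirc u hu =>
    ⟨part1 hD hne hρ hcirc hu, part2 hD hne hρ hcirc hu, part3 hD hne hρ hcirc hu,
      part4 hD hne hρ hcirc hu, ?_⟩⟩
  · intro D γ hD hγ hfr r hr
    obtain ⟨t, ht⟩ : r ∈ range (fun t => ‖γ t‖) := by
      apply mem_range_of_exists_le_of_exists_ge hγ.cont.norm ⟨0, hr⟩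
      exact (hγ.top.eventually_ge_atTop r).exists
    refine ⟨γ t, ht, fun hmem => ?_⟩
    have h1 : γ t ∈ frontier D := by
      rw [hfr]
      exact mem_range_self t
    rw [hD.frontier_eq] at h1
    exact h1.2 hmem
  · have hpi := Real.pi_pos
    have h := part2 hD hne hρ hcirc hu (2 * π) (by linarith) le_rfl (fun r _ => angle_le r)
    have e : π / (2 * π) = 1 / 2 := by field_simp
    rw [e] at h
    simpa only [Real.sqrt_eq_rpow] using h

end Pool.Agent.Results.MP_41eeae_an.AngularGrowth
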